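import Pool.Agent.W290.LG.Stm

set_option autoImplicit false

namespace Pool.Agent.W50.LG

theorem hen (p : ℕ) [Fact p.Prime] (n a : ℤ)
    (h : ‖((a ^ 2 - n : ℤ) : ℤ_[p])‖ < ‖((2 * a : ℤ) : ℤ_[p])‖ ^ 2) :
    ∃ x : ℚ_[p], x ^ 2 = (n : ℚ_[p]) := by
  let F : Polynomial ℤ := Polynomial.X ^ 2 - Polynomial.C n
  have h1 : ∀ z : ℤ_[p], Polynomial.aeval z F = z ^ 2 - (n : ℤ_[p]) := by
    intro z
    simp [F]
  have h2 : ∀ z : ℤ_[p], Polynomial.aeval z (Polynomial.derivative F) = 2 * z := by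
    intro z
    have h3 : Polynomial.derivative F = 2 * Polynomial.X := by
      simp [F]
    rw [h3, map_mul, Polynomial.aeval_X, map_ofNat]
  obtain ⟨z, hz, -⟩ := hensels_lemma (p := p) (F := F) (a := (a : ℤ_[p])) (by
    rw [h1, h2]
    have e1 : ((a : ℤ_[p])) ^ 2 - (n : ℤ_[p]) = ((a ^ 2 - n : ℤ) : ℤ_[p]) := by push_cast; ring
    have e2 : 2 * (a : ℤ_[p]) = ((2 * a : ℤ) : ℤ_[p]) := by push_cast; ring
    rw [e1, e2]
    exact h)
  rw [h1, sub_eq_zero] at hz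
  refine ⟨(z : ℚ_[p]), ?_⟩
  have h3 := congrArg (fun t : ℤ_[p] => (t : ℚ_[p])) hz
  simpa using h3

theorem odd_case (p : ℕ) [hp : Fact p.Prime] (hp2 : p ≠ 2) (n : ℤ) (hn : (n : ZMod p) ≠ 0)
    (hsq : IsSquare (n : ZMod p)) : ∃ x : ℚ_[p], x ^ 2 = (n : ℚ_[p]) := by
  obtain ⟨y, hy⟩ := hsq
  obtain ⟨a, rfl⟩ := ZMod.intCast_surjective y
  have h1 : (p : ℤ) ∣ a ^ 2 - n := by
    rw [← ZMod.intCast_zmod_eq_zero_iff_dvd]
    push_cast
    rw [hy]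
    ring
  have h2 : ¬ (p : ℤ) ∣ 2 * a := by
    rw [← ZMod.intCast_zmod_eq_zero_iff_dvd]
    push_cast
    intro h
    rcases mul_eq_zero.1 h with h3 | h3
    · have h4 : ((2 : ℕ) : ZMod p) = 0 := by exact_mod_cast h3
      rw [ZMod.natCast_eq_zero_iff] at h4
      exact hp2 ((Nat.prime_dvd_prime_iff_eq hp.out Nat.prime_two).1 h4)
    · apply hn
      rw [hy, h3, mul_zero]
  apply hen p n a
  have h3 : ‖((a ^ 2 - n : ℤ) : ℤ_[p])‖ < 1 := PadicInt.norm_int_lt_one_iff_dvd _ |>.2 h1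
  have h4 : ‖((2 * a : ℤ) : ℤ_[p])‖ = 1 := by
    refine le_antisymm (PadicInt.norm_le_one _) ?_
    by_contra h5
    rw [not_le] at h5
    exact h2 ((PadicInt.norm_int_lt_one_iff_dvd _).1 h5)
  rw [h4, one_pow]
  exact h3

theorem e17a : ((2 : ℤ) : ZMod 17) ≠ 0 := by decide

theorem e17b : IsSquare ((2 : ℤ) : ZMod 17) := ⟨6, by decide⟩

theorem main (p : ℕ) [hp : Fact p.Prime] :
    ∃ x : ℚ_[p], x ^ 2 = 2 ∨ x ^ 2 = 17 ∨ x ^ 2 = 34 := by
  by_cases h2 : p = 2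
  · subst h2
    obtain ⟨x, hx⟩ := hen 2 17 1 (by
      have e1 : ((1 ^ 2 - 17 : ℤ) : ℤ_[2]) = -((2 : ℕ) : ℤ_[2]) ^ 4 := by push_cast; norm_num
      have e2 : ((2 * 1 : ℤ) : ℤ_[2]) = ((2 : ℕ) : ℤ_[2]) := by push_cast; norm_num
      rw [e1, e2, norm_neg, PadicInt.norm_p_pow, PadicInt.norm_p]
      norm_num)
    exact ⟨x, Or.inr (Or.inl (by simpa using hx))⟩
  by_cases h17 : p = 17
  · subst h17
    obtain ⟨x, hx⟩ := odd_case 17 (by norm_num) 2 e17a e17b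
    exact ⟨x, Or.inl (by simpa using hx)⟩
  have hn2 : ((2 : ℤ) : ZMod p) ≠ 0 := by
    intro h
    have h4 : ((2 : ℕ) : ZMod p) = 0 := by exact_mod_cast h
    rw [ZMod.natCast_eq_zero_iff] at h4
    exact h2 ((Nat.prime_dvd_prime_iff_eq hp.out Nat.prime_two).1 h4)
  have hn17 : ((17 : ℤ) : ZMod p) ≠ 0 := by
    intro h
    have h4 : ((17 : ℕ) : ZMod p) = 0 := by exact_mod_cast h
    rw [ZMod.natCast_eq_zero_iff] at h4
    exact h17 ((Nat.prime_dvd_prime_iff_eq hp.out (by norm_num)).1 h4)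
  have hn34 : ((34 : ℤ) : ZMod p) ≠ 0 := by
    have : ((34 : ℤ) : ZMod p) = ((2 : ℤ) : ZMod p) * ((17 : ℤ) : ZMod p) := by
      rw [← Int.cast_mul]; norm_num
    rw [this]
    exact mul_ne_zero hn2 hn17
  rcases legendreSym.eq_one_or_neg_one p hn2 with h | h
  · obtain ⟨x, hx⟩ := odd_case p h2 2 hn2 ((legendreSym.eq_one_iff p hn2).1 h)
    exact ⟨x, Or.inl (by simpa using hx)⟩
  rcases legendreSym.eq_one_or_neg_one p hn17 with h' | h'
  · obtain ⟨x, hx⟩ := odd_case p h2 17 hn17 ((legendreSym.eq_one_iff p hn17).1 h')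
    exact ⟨x, Or.inr (Or.inl (by simpa using hx))⟩
  have h34 : legendreSym p 34 = 1 := by
    have : (34 : ℤ) = 2 * 17 := by norm_num
    rw [this, legendreSym.mul, h, h']
    norm_num
  obtain ⟨x, hx⟩ := odd_case p h2 34 hn34 ((legendreSym.eq_one_iff p hn34).1 h34)
  exact ⟨x, Or.inr (Or.inr (by simpa using hx))⟩

theorem t_F : Pool.Agent.W290.LG.S_F := fun p _ => main p

end Pool.Agent.W50.LG
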